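import Mathlib

set_option autoImplicit false

namespace Pool.Agent.Results.MP_d68c88_al.Yes

open Module

section abstr
variable {K N N' : Type} [Field K] [CharZero K] [AddCommGroup N] [Module K N]
  [AddCommGroup N'] [Module K N']

/-- relations of `sl₂` -/
structure Sl (e f h : End K N) : Prop where
  ef : ∀ v, e (f v) = f (e v) + h v
  he : ∀ v, h (e v) = e (h v) + (2 : K) • e v
  hf : ∀ v, h (f v) = f (h v) - (2 : K) • f v

variable {e f h : End K N}

omit [CharZero K] in
theorem Sl.hfk (S : Sl e f h) {w : N} {l : K} (hw : h w = l • w) (k : ℕ) :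
    h ((f ^ k) w) = (l - 2 * k) • (f ^ k) w := by
  induction k with
  | zero => simpa using hw
  | succ k ih => rw [pow_succ', End.mul_apply, S.hf, ih, map_smul]; push_cast; module

omit [CharZero K] in
theorem Sl.hek (S : Sl e f h) {w : N} {l : K} (hw : h w = l • w) (k : ℕ) :
    h ((e ^ k) w) = (l + 2 * k) • (e ^ k) w := by
  induction k with
  | zero => simpa using hw
  | succ k ih => rw [pow_succ', End.mul_apply, S.he, ih, map_smul]; push_cast; module

omit [CharZero K] in
theorem Sl.efk (S : Sl e f h) {w : N} {l : K} (hw : h w = l • w) (he : e w = 0) (k : ℕ) :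
    e ((f ^ (k + 1)) w) = (((k : K) + 1) * (l - k)) • (f ^ k) w := by
  induction k with
  | zero => simp [S.ef, he, hw]
  | succ k ih =>
    rw [pow_succ' f (k + 1), End.mul_apply, S.ef, ih, S.hfk hw, map_smul, ← End.mul_apply f,
      ← pow_succ']
    push_cast; module

omit [CharZero K] in
theorem Sl.ekfk (S : Sl e f h) {w : N} {l : K} (hw : h w = l • w) (he : e w = 0) (k : ℕ) :
    (e ^ k) ((f ^ k) w) = (∏ j ∈ Finset.range k, (((j : K) + 1) * (l - j))) • w := by
  induction k with
  | zero => simp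
  | succ k ih =>
    rw [pow_succ e, End.mul_apply, S.efk hw he, map_smul, ih, Finset.prod_range_succ, smul_smul,
      mul_comm]

theorem Sl.neg (S : Sl e f h) {w : N} {n : ℤ} (hn : n < 0) (hw : h w = (n : K) • w)
    (he : e w = 0) (hf : ∃ k, (f ^ k) w = 0) : w = 0 := by
  obtain ⟨k, hk⟩ := hf
  have := S.ekfk hw he k
  rw [hk, map_zero] at this
  refine (smul_eq_zero.1 this.symm).resolve_left (Finset.prod_ne_zero_iff.2 fun j _ => ?_)
  refine mul_ne_zero (by exact_mod_cast Nat.succ_ne_zero j) ?_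
  have : n - j ≠ 0 := by omega
  exact_mod_cast this

theorem Sl.lift1 (S : Sl e f h) (P : Submodule K N) (Pe : ∀ v ∈ P, e v ∈ P)
    (Pf : ∀ v ∈ P, f v ∈ P) {n : ℤ} (hn : 0 ≤ n) (k : ℕ) :
    ∀ m, h m = (n : K) • m → e m ∈ P → (e ^ (k + 1)) m = 0 → ∃ m', e m' = 0 ∧ m - m' ∈ P := by
  have Pek : ∀ (k : ℕ), ∀ v ∈ P, (e ^ k) v ∈ P := fun k v hv => by
    induction k with
    | zero => simpa
    | succ k ih => rw [pow_succ', End.mul_apply]; exact Pe _ ih
  have Pfk : ∀ (k : ℕ), ∀ v ∈ P, (f ^ k) v ∈ P := fun k v hv => by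
    induction k with
    | zero => simpa
    | succ k ih => rw [pow_succ', End.mul_apply]; exact Pf _ ih
  induction k with
  | zero => exact fun m _ _ h3 => ⟨m, by simpa using h3, by simp⟩
  | succ k ih =>
    intro m h1 h2 h3
    have hw := S.hek h1 (k + 1)
    have h4 := S.ekfk hw (by rw [← End.mul_apply, ← pow_succ', h3]) (k + 1)
    have h5 := S.hfk hw (k + 1)
    have hP : (f ^ (k + 1)) ((e ^ (k + 1)) m) ∈ P :=
      Pfk _ _ (by rw [pow_succ, End.mul_apply]; exact Pek _ _ h2)
    have hc : (∏ j ∈ Finset.range (k + 1), (((j : K) + 1) *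
        ((n : K) + 2 * ((k + 1 : ℕ) : K) - j))) ≠ 0 := by
      refine Finset.prod_ne_zero_iff.2 fun j hj => ?_
      refine mul_ne_zero (by exact_mod_cast Nat.succ_ne_zero j) ?_
      have : n + 2 * ((k + 1 : ℕ) : ℤ) - j ≠ 0 := by
        have := Finset.mem_range.1 hj
        omega
      exact_mod_cast this
    generalize (∏ j ∈ Finset.range (k + 1), (((j : K) + 1) *
        ((n : K) + 2 * ((k + 1 : ℕ) : K) - j))) = c at h4 hc
    obtain ⟨m', a1, a2⟩ := ih (m - c⁻¹ • (f ^ (k + 1)) ((e ^ (k + 1)) m))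
      (by rw [map_sub, map_smul, h5, h1]; module)
      (by rw [map_sub, map_smul]; exact P.sub_mem h2 (P.smul_mem _ (Pe _ hP)))
      (by rw [map_sub, map_smul, h4, smul_smul, inv_mul_cancel₀ hc, one_smul, sub_self])
    refine ⟨m', a1, ?_⟩
    have := P.add_mem a2 (P.smul_mem c⁻¹ hP)
    convert this using 1
    abel

theorem Sl.lift (S : Sl e f h) {e' f' h' : End K N'} (S' : Sl e' f' h') (π : N →ₗ[K] N')
    (pe : ∀ v, π (e v) = e' (π v)) (pf : ∀ v, π (f v) = f' (π v)) (ph : ∀ v, π (h v) = h' (π v))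
    (hw : ∀ v, v ∈ ⨆ n : ℤ, h.eigenspace n) (ne : ∀ v, ∃ k, (e ^ k) v = 0)
    (nf : ∀ v, ∃ k, (f' ^ k) v = 0) (m : N) (hm : e' (π m) = 0) :
    ∃ m', e m' = 0 ∧ π m' = π m := by
  classical
  obtain ⟨c, hc, rfl⟩ := (Submodule.mem_iSup_iff_exists_finsupp _ _).1 (hw m)
  have hc' : ∀ n : ℤ, h (c n) = (n : K) • c n := fun n => End.mem_eigenspace_iff.1 (hc n)
  have ind : iSupIndep fun n : ℤ => h'.eigenspace ((n : K) + 2) :=
    h'.eigenspaces_iSupIndep.comp (f := fun n : ℤ => (n : K) + 2) fun a b hab => by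
      simpa using hab
  have h0 := (iSupIndep_iff_finsetSum_eq_zero_imp_eq_zero _).1 ind c.support
    (fun n => e' (π (c n))) (fun n _ => End.mem_eigenspace_iff.2 (by
      rw [S'.he, ← ph, hc', map_smul, map_smul]; module))
    (by simpa [Finsupp.sum] using hm)
  have h1 : ∀ n ∈ c.support, ∃ m', e m' = 0 ∧ π m' = π (c n) := fun n hn => by
    rcases lt_or_ge n 0 with k | k
    · refine ⟨0, map_zero _, ?_⟩
      rw [map_zero, S'.neg k (by rw [← ph, hc', map_smul]) (h0 n hn) (nf _)]
    · obtain ⟨j, hj⟩ := ne (c n)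
      obtain ⟨m', a1, a2⟩ := S.lift1 (LinearMap.ker π)
        (fun v hv => by rw [LinearMap.mem_ker] at *; rw [pe, hv, map_zero])
        (fun v hv => by rw [LinearMap.mem_ker] at *; rw [pf, hv, map_zero]) k j (c n) (hc' n)
        (by rw [LinearMap.mem_ker, pe, h0 n hn]) (by rw [pow_succ', End.mul_apply, hj, map_zero])
      refine ⟨m', a1, ?_⟩
      rw [LinearMap.mem_ker, map_sub, sub_eq_zero] at a2
      exact a2.symm
  choose! g g1 g2 using h1
  refine ⟨∑ n ∈ c.support, g n, ?_, ?_⟩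
  · rw [map_sum]; exact Finset.sum_eq_zero g1
  · rw [map_sum, Finsupp.sum, map_sum]; exact Finset.sum_congr rfl g2

end abstr

/-- the free Lie algebra on `x = of true`, `y = of false` -/
abbrev L (K : Type) [Field K] := FreeLieAlgebra K Bool
/-- the generator `x` -/
noncomputable def X (K : Type) [Field K] : L K := FreeLieAlgebra.of K true
/-- the generator `y` -/
noncomputable def Y (K : Type) [Field K] : L K := FreeLieAlgebra.of K false

/-- generators of type 1 and 2 -/
def Gens {K : Type} [Field K] (δ : LieDerivation K (L K) (L K)) : Set (L K) :=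
  {X K} ∪ {c | δ c = 0 ∧ ∃ (f g : L K) (r : ℕ) (α : K), 1 ≤ r ∧ (⇑δ)^[r - 1] f = α • g ∧
    α • g ≠ 0 ∧ c = ⁅f, g⁆}

variable {K : Type} [Field K]

theorem gen (A : LieSubalgebra K (L K)) (hx : X K ∈ A) (hy : Y K ∈ A) (v : L K) : v ∈ A := by
  let φ : L K →ₗ⁅K⁆ A := FreeLieAlgebra.lift K fun b => if b then ⟨_, hx⟩ else ⟨_, hy⟩
  have : A.incl.comp φ = LieHom.id := FreeLieAlgebra.hom_ext fun b => by
    cases b <;> simp [φ, X, Y]
  have h2 : v = A.incl (φ v) := (DFunLike.congr_fun this v).symm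
  rw [h2]; exact (φ v).2

theorem ind (P : Submodule K (L K)) (hx : X K ∈ P) (hy : Y K ∈ P)
    (hl : ∀ a ∈ P, ∀ b ∈ P, ⁅a, b⁆ ∈ P) (v : L K) : v ∈ P :=
  gen { P with lie_mem' := fun ha hb => hl _ ha _ hb } hx hy v

theorem dext (D E : LieDerivation K (L K) (L K)) (hx : D (X K) = E (X K))
    (hy : D (Y K) = E (Y K)) (v : L K) : D v = E v :=
  ind (LinearMap.eqLocus (D : L K →ₗ[K] L K) E) hx hy (fun a ha b hb => by
    have ha' : D a = E a := ha
    have hb' : D b = E b := hb
    show D _ = E _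
    rw [D.apply_lie_eq_add, E.apply_lie_eq_add, ha', hb']) v

theorem nilp (D : LieDerivation K (L K) (L K)) (hx : D (D (X K)) = 0) (hy : D (D (Y K)) = 0)
    (v : L K) : ∃ k, ((D : End K (L K)) ^ k) v = 0 := by
  have up : ∀ (a : L K) (i j : ℕ), i ≤ j → ((D : End K (L K)) ^ i) a = 0 →
      ((D : End K (L K)) ^ j) a = 0 := fun a i j hij h => by
    obtain ⟨k, rfl⟩ := Nat.exists_eq_add_of_le' hij
    rw [pow_add, End.mul_apply, h, map_zero]
  let P : Submodule K (L K) :=
    { carrier := {v | ∃ k, ((D : End K (L K)) ^ k) v = 0}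
      zero_mem' := ⟨0, by simp⟩
      add_mem' := by
        rintro a b ⟨i, hi⟩ ⟨j, hj⟩
        exact ⟨max i j, by rw [map_add, up a i _ (le_max_left _ _) hi,
          up b j _ (le_max_right _ _) hj, add_zero]⟩
      smul_mem' := by
        rintro c a ⟨i, hi⟩
        exact ⟨i, by rw [map_smul, hi, smul_zero]⟩ }
  refine ind P ⟨2, hx⟩ ⟨2, hy⟩ ?_ v
  rintro a ⟨i, hi⟩ b ⟨j, hj⟩
  refine ⟨i + j, ?_⟩
  have := D.iterate_apply_lie (i + j) a b
  simp only [End.pow_apply] at up hi hj ⊢
  refine this.trans (Finset.sum_eq_zero fun p hp => ?_)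
  have hp : p.1 + p.2 = i + j := by simpa using hp
  rcases le_or_gt i p.1 with k | k
  · have := up a i _ k hi
    simp only [LieDerivation.coeFn_coe] at this
    simp [this]
  · have := up b j p.2 (by omega) hj
    simp only [LieDerivation.coeFn_coe] at this
    simp [this]

noncomputable def sw : L K →ₗ⁅K⁆ L K := FreeLieAlgebra.lift K fun b => FreeLieAlgebra.of K (!b)

theorem sw_X : sw (X K) = Y K := FreeLieAlgebra.lift_of_apply _ _
theorem sw_Y : sw (Y K) = X K := FreeLieAlgebra.lift_of_apply _ _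
theorem sw_sw (v : L K) : sw (sw v) = v := by
  have : (sw (K := K)).comp sw = LieHom.id := FreeLieAlgebra.hom_ext fun b => by
    simp [sw]
  exact DFunLike.congr_fun this v

noncomputable def Del (δ : LieDerivation K (L K) (L K)) : LieDerivation K (L K) (L K) where
  toLinearMap := sw.toLinearMap ∘ₗ δ.toLinearMap ∘ₗ sw.toLinearMap
  leibniz' a b := by simp [sw_sw]

theorem Del_apply (δ : LieDerivation K (L K) (L K)) (v : L K) : Del δ v = sw (δ (sw v)) := rfl

noncomputable def pi : L K × L K →ₗ[K] L K where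
  toFun p := ⁅p.1, X K⁆ + ⁅p.2, Y K⁆
  map_add' p q := by simp; abel
  map_smul' c p := by simp

theorem pi_apply (p : L K × L K) : pi p = ⁅p.1, X K⁆ + ⁅p.2, Y K⁆ := rfl

theorem lie_range (a l : L K) : ⁅l, a⁆ ∈ LinearMap.range (pi (K := K)) := by
  let P : Submodule K (L K) :=
    { carrier := {a | ∀ l : L K, ⁅l, a⁆ ∈ LinearMap.range (pi (K := K))}
      zero_mem' := fun l => by simp
      add_mem' := fun ha hb l => by rw [lie_add]; exact add_mem (ha l) (hb l)
      smul_mem' := fun c a ha l => by rw [lie_smul]; exact Submodule.smul_mem _ _ (ha l) }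
  refine ind P (fun l => ⟨(l, 0), by simp [pi_apply]⟩) (fun l => ⟨(0, l), by simp [pi_apply]⟩)
    (fun a ha b hb l => ?_) a l
  have : ⁅l, ⁅a, b⁆⁆ = ⁅⁅l, a⁆, b⁆ - ⁅⁅l, b⁆, a⁆ := by
    rw [leibniz_lie, ← lie_skew a, sub_eq_add_neg]
  rw [this]
  exact sub_mem (hb _) (ha _)

theorem decomp (v : L K) : ∃ (α β : K) (m : L K × L K), v = α • X K + β • Y K + pi m := by
  let P : Submodule K (L K) :=
    { carrier := {v | ∃ (α β : K) (m : L K × L K), v = α • X K + β • Y K + pi m}
      zero_mem' := ⟨0, 0, 0, by simp⟩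
      add_mem' := by
        rintro _ _ ⟨a, b, m, rfl⟩ ⟨a', b', m', rfl⟩
        exact ⟨a + a', b + b', m + m', by rw [map_add]; module⟩
      smul_mem' := by
        rintro c _ ⟨a, b, m, rfl⟩
        exact ⟨c * a, c * b, c • m, by rw [map_smul]; module⟩ }
  refine ind P ⟨1, 0, 0, by simp⟩ ⟨0, 1, 0, by simp⟩ (fun a _ b _ => ?_) v
  obtain ⟨m, hm⟩ := lie_range b a
  exact ⟨0, 0, m, by simp [hm]⟩

attribute [local instance 100] LieRing.ofAssociativeRing

theorem beta (β : K) (m : L K × L K) (h : β • X K + pi m = 0) : β = 0 := by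
  let φ : L K →ₗ⁅K⁆ K := FreeLieAlgebra.lift K fun _ => 1
  have := congrArg φ h
  simpa [pi_apply, φ, X, Ring.lie_def, mul_comm] using this

theorem main [CharZero K] (δ : LieDerivation K (L K) (L K)) (hx : δ (X K) = 0)
    (hy : δ (Y K) = X K) (m : L K × L K) (hm : δ (pi m) = 0) :
    ∃ u, δ (δ u) = 0 ∧ pi m = ⁅u, X K⁆ + ⁅Y K, δ u⁆ := by
  have dx : Del δ (X K) = Y K := by rw [Del_apply, sw_X, hy, sw_X]
  have dy : Del δ (Y K) = 0 := by rw [Del_apply, sw_Y, hx, map_zero]
  generalize Del δ = Δ at dx dy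
  let H := ⁅δ, Δ⁆
  have Ha : ∀ v, H v = δ (Δ v) - Δ (δ v) := fun v => rfl
  have Hx : H (X K) = X K := by simp [Ha, dx, hx, hy]
  have Hy : H (Y K) = -Y K := by simp [Ha, dx, dy, hy]
  have r1 : ∀ v, H (δ v) = δ (H v) + (2 : K) • δ v := fun v => by
    have := dext ⁅H, δ⁆ ((2 : K) • δ) (by simp [LieDerivation.commutator_apply, hx, Hx])
      (by simp [LieDerivation.commutator_apply, hy, Hx, Hy, two_smul]) v
    rw [LieDerivation.commutator_apply, LieDerivation.smul_apply] at this
    rw [← this]; abel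
  have r2 : ∀ v, H (Δ v) = Δ (H v) - (2 : K) • Δ v := fun v => by
    have := dext ⁅H, Δ⁆ (-((2 : K) • Δ))
      (by simp [LieDerivation.commutator_apply, dx, Hx, Hy, two_smul, sub_eq_add_neg])
      (by simp [LieDerivation.commutator_apply, dy, Hy]) v
    rw [LieDerivation.commutator_apply, LieDerivation.neg_apply, LieDerivation.smul_apply] at this
    rw [sub_eq_add_neg, ← this]; abel
  have S' : Sl (δ : End K (L K)) (Δ : End K (L K)) (H : End K (L K)) :=
    ⟨fun v => by simp [Ha], r1, r2⟩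
  let e : End K (L K × L K) := LinearMap.prod
    (δ.toLinearMap ∘ₗ LinearMap.fst K _ _ + LinearMap.snd K _ _) (δ.toLinearMap ∘ₗ LinearMap.snd K _ _)
  let f : End K (L K × L K) := LinearMap.prod
    (Δ.toLinearMap ∘ₗ LinearMap.fst K _ _) (Δ.toLinearMap ∘ₗ LinearMap.snd K _ _ + LinearMap.fst K _ _)
  let h : End K (L K × L K) := LinearMap.prod
    (H.toLinearMap ∘ₗ LinearMap.fst K _ _ + LinearMap.fst K _ _)
    (H.toLinearMap ∘ₗ LinearMap.snd K _ _ - LinearMap.snd K _ _)
  have ea : ∀ p, e p = (δ p.1 + p.2, δ p.2) := fun _ => rfl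
  have fa : ∀ p, f p = (Δ p.1, Δ p.2 + p.1) := fun _ => rfl
  have ha : ∀ p, h p = (H p.1 + p.1, H p.2 - p.2) := fun _ => rfl
  have S : Sl e f h := by
    refine ⟨fun v => ?_, fun v => ?_, fun v => ?_⟩
    · ext <;> simp only [ea, fa, ha, Ha, map_add, Prod.fst_add, Prod.snd_add] <;> abel
    · ext <;> simp only [ea, ha, r1, map_add, map_sub, Prod.fst_add, Prod.snd_add, Prod.smul_fst,
        Prod.smul_snd] <;> module
    · ext <;> simp only [fa, ha, r2, map_add, map_sub, Prod.fst_sub, Prod.snd_sub, Prod.smul_fst,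
        Prod.smul_snd] <;> module
  have wL : ∀ v : L K, v ∈ ⨆ n : ℤ, End.eigenspace (H : End K (L K)) n := by
    refine ind _ (Submodule.mem_iSup_of_mem 1 (End.mem_eigenspace_iff.2 (by simpa using Hx)))
      (Submodule.mem_iSup_of_mem (-1) (End.mem_eigenspace_iff.2 (by simpa using Hy)))
      fun a ha b hb => ?_
    induction ha using Submodule.iSup_induction' with
    | zero => simp
    | add a a' _ _ i1 i2 => rw [add_lie]; exact add_mem i1 i2
    | mem i a ha =>
      induction hb using Submodule.iSup_induction' with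
      | zero => simp
      | add b b' _ _ i1 i2 => rw [lie_add]; exact add_mem i1 i2
      | mem j b hb =>
        refine Submodule.mem_iSup_of_mem (i + j) (End.mem_eigenspace_iff.2 ?_)
        have ha' : H a = (i : K) • a := End.mem_eigenspace_iff.1 ha
        have hb' : H b = (j : K) • b := End.mem_eigenspace_iff.1 hb
        show H _ = _
        rw [H.apply_lie_eq_add, ha', hb', lie_smul, smul_lie]
        push_cast; module
  have wM : ∀ v, v ∈ ⨆ n : ℤ, h.eigenspace n := by
    rintro ⟨u, v⟩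
    have : (u, v) = (u, 0) + (0, v) := by simp
    rw [this]
    clear this
    refine add_mem ?_ ?_
    · induction wL u using Submodule.iSup_induction' with
      | zero => exact zero_mem _
      | add a a' _ _ i1 i2 => simpa using add_mem i1 i2
      | mem i a hi =>
        refine Submodule.mem_iSup_of_mem (i + 1) (End.mem_eigenspace_iff.2 ?_)
        have ha' : H a = (i : K) • a := End.mem_eigenspace_iff.1 hi
        simp [ha, ha', add_smul]
    · induction wL v using Submodule.iSup_induction' with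
      | zero => exact zero_mem _
      | add a a' _ _ i1 i2 => simpa using add_mem i1 i2
      | mem i a hi =>
        refine Submodule.mem_iSup_of_mem (i - 1) (End.mem_eigenspace_iff.2 ?_)
        have ha' : H a = (i : K) • a := End.mem_eigenspace_iff.1 hi
        simp [ha, ha', sub_smul]
  have nd := nilp δ (by simp [hx]) (by simp [hx, hy])
  have ne : ∀ v, ∃ k, (e ^ k) v = 0 := by
    intro v
    have s2 : ∀ (k : ℕ) p, ((e ^ k) p).2 = ((δ : End K (L K)) ^ k) p.2 := fun k p => by
      induction k with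
      | zero => rfl
      | succ k ih => rw [pow_succ', pow_succ', End.mul_apply, End.mul_apply, ea, ih]; rfl
    have s1 : ∀ (k : ℕ) p, p.2 = 0 → ((e ^ k) p).1 = ((δ : End K (L K)) ^ k) p.1 := fun k p hp => by
      induction k with
      | zero => rfl
      | succ k ih =>
        rw [pow_succ', pow_succ', End.mul_apply, End.mul_apply, ea, ih, s2, hp, map_zero, add_zero]
        rfl
    obtain ⟨k, hk⟩ := nd v.2
    obtain ⟨j, hj⟩ := nd ((e ^ k) v).1
    refine ⟨j + k, ?_⟩
    rw [pow_add, End.mul_apply]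
    rw [← s2] at hk
    ext
    · rw [s1 _ _ hk, hj]; rfl
    · rw [s2, hk, map_zero]; rfl
  obtain ⟨m', a1, a2⟩ := S.lift S' pi
    (fun v => by simp only [ea, pi_apply, LieDerivation.coeFn_coe, map_add, LieDerivation.apply_lie_eq_add, hx, hy, add_lie, sub_lie, lie_zero, lie_neg, zero_add]; abel)
    (fun v => by simp only [fa, pi_apply, LieDerivation.coeFn_coe, map_add, LieDerivation.apply_lie_eq_add, dx, dy, add_lie, sub_lie, lie_zero, lie_neg, zero_add]; abel)
    (fun v => by simp only [ha, pi_apply, LieDerivation.coeFn_coe, map_add, LieDerivation.apply_lie_eq_add, Hx, Hy, add_lie, sub_lie, lie_zero, lie_neg, zero_add]; abel)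
    wM ne (nilp Δ (by simp [dx, dy]) (by simp [dy])) m hm
  rw [ea, Prod.mk_eq_zero] at a1
  have a3 : m'.2 = -δ m'.1 := eq_neg_of_add_eq_zero_right a1.1
  refine ⟨m'.1, by simpa [a3] using a1.2, ?_⟩
  rw [← a2, pi_apply, a3, neg_lie, lie_skew]

theorem result : ∀ (K : Type) [Field K] [CharZero K] (δ : LieDerivation K (L K) (L K)),
    δ (X K) = 0 → δ (Y K) = X K →
    ∀ c : L K, δ c = 0 ↔ c ∈ LieSubalgebra.lieSpan K (L K) (Gens δ) := by
  intro K _ _ δ hx hy c
  constructor
  · intro hc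
    have k1 : ∀ f, δ (δ f) = 0 → ⁅f, δ f⁆ ∈ LieSubalgebra.lieSpan K (L K) (Gens δ) := by
      intro f hf
      by_cases h0 : δ f = 0
      · simp [h0]
      · exact LieSubalgebra.subset_lieSpan (Or.inr ⟨by simp [hf], f, δ f, 2, 1, by norm_num,
          by simp, by simpa using h0, rfl⟩)
    obtain ⟨α, β, m, rfl⟩ := decomp c
    have pe : δ (pi m) = pi (δ m.1 + m.2, δ m.2) := by
      simp only [pi_apply, map_add, LieDerivation.apply_lie_eq_add, hx, hy, add_lie, sub_lie, lie_zero, lie_neg, zero_add]; abel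
    simp only [map_add, map_smul, hx, hy, smul_zero, zero_add] at hc
    have hb : β = 0 := beta β _ (pe ▸ hc)
    subst hb
    rw [zero_smul, zero_add] at hc
    obtain ⟨u, h1, h2⟩ := main δ hx hy m hc
    rw [zero_smul, add_zero, h2]
    refine add_mem (LieSubalgebra.smul_mem _ _ (LieSubalgebra.subset_lieSpan (Or.inl rfl))) ?_
    have := sub_mem (sub_mem (k1 (u + Y K) (by simp [h1, hx, hy])) (k1 u h1))
      (k1 (Y K) (by simp [hx, hy]))
    convert this using 1
    simp only [map_add, hy, add_lie, lie_add]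
    abel
  · intro hc
    let A : LieSubalgebra K (L K) := { LinearMap.ker δ.toLinearMap with
      lie_mem' := fun {a b} ha hb => by
        have ha' : δ a = 0 := ha
        have hb' : δ b = 0 := hb
        show δ _ = 0
        simp [ha', hb'] }
    have : LieSubalgebra.lieSpan K (L K) (Gens δ) ≤ A := LieSubalgebra.lieSpan_le.2 (by
      rintro v (rfl | h)
      exacts [hx, h.1])
    exact this hc

end Pool.Agent.Results.MP_d68c88_al.Yes
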